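import Pool.Agent.H76.SLP.Bridge
import Pool.Agent.H19.BFL.Bflw
import Pool.Agent.H29.PB.Cnv
import Pool.Agent.H40.SLP.Rads

/-!
# The slope law from `SLO`
-/

set_option autoImplicit false

namespace Pool.PB

open Pool.K2S

theorem slp_of_slo {k : ℕ} (hk : 1 ≤ k) {S : FCl (k + 1)} (hS : SPS S (k + 1 - 2))
    (hSLO : Pool.SLF.SLO S) : SLP S :=
  slp_of_slf (rads_thm hS) (bflw_thm (by omega) hS) hSLO (cnvs hS)

end Pool.PB
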